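import Pool.Agent.H84.S2.TgE
import Pool.Agent.H80.S2.MXB

/-!
# MP_70ba79_ag, THEOREM S, part 3: `MXS`, the theorem, if there is a section of degree 0 in `w`;
adapted from helper80 (`MXV`)
-/

set_option autoImplicit false

namespace Pool.Agent.H42.S2

open MvPolynomial SC
open Pool.Agent.H27.LV (ge deg poleOrder canDeg)
open Pool.Agent.H84.SM (cr dt dp)
open Pool.Agent.H92.SF (Q2 WH cq)
open Pool.Agent.H3.SF (Itg Bb BB Hm eu grd hes Sfc Crd Cnn Crf Prm nv Vl VQ evc FE E Tw Con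
  const_line)
open Pool.Agent.H84.SF
open Pool.Agent.H3.S2 Pool.Agent.H84.S2
open Pool.Agent.H62.HIL (hm_mul hm_aeval)
open Pool.Agent.H70.SF (hm_u itg_aeval)
open Pool.Agent.H80.S2

theorem pf_MXS (hEFS : T_EFS) (hFO2 : Pool.Agent.H3.S2.T_FO2)
    (hPS2 : Pool.Agent.H3.S2.T_PS2) (hVLQ : Pool.Agent.H3.SF.T_VLQ)
    (hSF1 : Pool.Agent.H3.SF.T_SF1) (hDSX : Pool.Agent.H3.SF.T_DSX)
    (hIMF : Pool.Agent.H84.SM.T_IMF) (hCAN : Pool.Agent.H84.SM.T_CAN)
    (hHDN : Pool.Agent.H3.SF.T_HDN) : T_MXS := by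
  intro k F σ _ _ _ _ _ _ _ X u dd δ j0 c0 J hS hX m GP hm2 hN sg S hsg hSh hV
  classical
  obtain ⟨n, t, V, hnt, hV0, hVd, hVE⟩ := hV
  obtain ⟨hd, hui, hpi, -⟩ := hSF1 k F u dd δ j0 c0 J hS
  -- the curve
  have hG : Crw u dd m (aeval X GP) := by
    refine ⟨hN.ne, ?_, ?_⟩
    · have h1 : aeval X GP ∈ Algebra.adjoin k (Set.range X) := by
        rw [Algebra.adjoin_range_eq_range_aeval]
        exact ⟨GP, rfl⟩
      have h2 : Algebra.adjoin k (Set.range X) ≤ Bb k u := by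
        refine Algebra.adjoin_le ?_
        rintro _ ⟨i, rfl⟩
        exact hX.Xint i
      exact h2 h1
    · refine hm_aeval (fun i => ?_) hN.hom
      unfold Hm
      rw [hX.Xeu]
      simp
  -- the equation
  obtain ⟨h, H, hH0, hHh, hHi⟩ := den_exists hHDN hd hVd hVE.1
  set c : Q2 F := cq (aeval u H) * V with hc
  have hFE : FE u dd c := fe_cq hS.du hS.ind hV0 hVd hVE.1 hH0 hHh hHi
  obtain ⟨C1, hC1⟩ := hFO2 k F u dd δ j0 c0 J hS m (aeval X GP) sg S hsg hG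
    hSh c hFE
  refine ⟨2 * n + 7 * C1 + h + 2, ?_⟩
  intro K _ _ _ ht D hD φ x g Sp hx
  have hcan := hCAN k K ht D hD
  have hM1 : (1 : ℤ) ≤ max 1 (canDeg D + Sp.card) := le_max_left _ _
  have hM2 : canDeg D + (Sp.card : ℤ) ≤ max 1 (canDeg D + Sp.card) := le_max_right _ _
  -- bounds
  have hred0 : (∃ (e : ℕ) (Φ : MvPolynomial (Fin 3) k), e ≤ 2 * (C1 * Sp.card) +
      C1 + h + 1 ∧ Φ ≠ 0 ∧ Φ.IsHomogeneous e ∧ aeval x Φ = 0) →
      ∃ (e : ℕ) (Φ : MvPolynomial (Fin 3) k), (e : ℤ) ≤ ((2 * n + 7 * C1 + h + 2 : ℕ) : ℤ) *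
        max 1 (canDeg D + Sp.card) ∧ Φ ≠ 0 ∧ Φ.IsHomogeneous e ∧ aeval x Φ = 0 := by
    rintro ⟨e, Φ, he, hΦ⟩
    refine ⟨e, Φ, ?_, hΦ⟩
    have h1 : (e : ℤ) ≤ 2 * ((C1 : ℤ) * (Sp.card : ℤ)) + (C1 : ℤ) + h + 1 := by
      exact_mod_cast he
    generalize max 1 (canDeg D + (Sp.card : ℤ)) = M at hM1 hM2 ⊢
    have h2 : (Sp.card : ℤ) ≤ 3 * M := by omega
    have h3 : (0 : ℤ) ≤ (C1 : ℤ) := by positivity
    have h4 : (C1 : ℤ) * (Sp.card : ℤ) ≤ (C1 : ℤ) * (3 * M) :=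
      mul_le_mul_of_nonneg_left h2 h3
    have h5 : (C1 : ℤ) * 1 ≤ (C1 : ℤ) * M := mul_le_mul_of_nonneg_left hM1 h3
    have h6 : (0 : ℤ) ≤ (n : ℤ) * M := by positivity
    have h7 : (h : ℤ) * 1 ≤ (h : ℤ) * M := mul_le_mul_of_nonneg_left hM1 (by positivity)
    push_cast
    nlinarith
  by_cases hcc : ∀ i, x i ∈ Set.range (algebraMap k K)
  · obtain ⟨Φ, h1, h2, h3⟩ := const_line x hx.one hcc
    exact hred0 ⟨1, Φ, by omega, h1, h2, h3⟩
  -- the denominator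
  have hHu : Itg k u (aeval u H) := itg_aeval u H
  have hval : φ ⟨aeval u H, hHu⟩ = aeval x H := by
    let u' : Fin 3 → Bb k u := fun i => ⟨u i, hui i⟩
    have h1 : (⟨aeval u H, hHu⟩ : Bb k u) = aeval u' H := by
      apply Subtype.ext
      have h2 : ((aeval u' H : Bb k u) : F) = (Bb k u).val (aeval u' H) := rfl
      rw [h2, MvPolynomial.comp_aeval_apply]
      rfl
    rw [h1, MvPolynomial.comp_aeval_apply]
    have h3 : (fun i => φ (u' i)) = x := funext fun i => hx.cx i (u' i) rfl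
    exact congrArg (fun y : Fin 3 → K => aeval y H) h3
  by_cases hHx : aeval x H = 0
  · exact hred0 ⟨h, H, by omega, hH0, hHh, hHx⟩
  -- the value of the section
  obtain ⟨hq1, hq2, -, -, hq5, -, hq7⟩ := hVLQ k F K u φ
  obtain ⟨VK, hVK⟩ := hq7 V (fun j a => by
    refine ⟨φ ⟨_, hHi j a⟩ / aeval x H, ⟨aeval u H, hHu⟩, ⟨_, hHi j a⟩, ?_, rfl, ?_⟩
    · rw [hval]; exact hHx
    · rw [hval, mul_div_cancel₀ _ hHx])
  by_cases hev : evc D x VK = 0
  · -- a solution of the first order equation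
    have hb : Vl u φ (aeval u H) (aeval x H) := by
      refine ⟨1, ⟨aeval u H, hHu⟩, ?_, ?_, ?_⟩
      · rw [map_one]; exact one_ne_zero
      · show (1 : F) * _ = _
        rw [one_mul]
      · rw [map_one, one_mul, hval]
    have hW : VQ u φ c (cq (aeval x H) * VK) := (hq2 _ _ _ _ (hq5 _ _ hb) hVK).2
    have hce : evc D x (cq (aeval x H) * VK) = 0 := by rw [map_mul, hev, mul_zero]
    rcases hPS2 k F u dd δ j0 c0 J hS m (aeval X GP) sg S hG hSh K ht D hD φ x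
      g Sp hx with hcc' | ⟨K0, i1, i2, i3, ι, φ0, x0, g0, D0, μ, S0, ht0, hD0, hx0, hφ0, hpr, hμ,
        hDμ, hcr, hcard⟩
    · exact absurd hcc' hcc
    · have hxx : x = fun j => ι (x0 j) := funext fun j => (hx0 j).symm
      have hdsx := hDSX k F u dd K0 K ι φ0 φ D D0 μ x0 hμ hDμ hφ0
      have hCon : Con k C1 x0 S0.card := by
        rw [hxx] at hce hW
        obtain ⟨W0, hW0, he0⟩ := hdsx.1 c _ hFE hW hce
        exact hC1 K0 ht0 D0 hD0 φ0 x0 g0 S0 hpr hcr W0 hW0 he0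
      apply hred0
      have hav : ∀ Φ : MvPolynomial (Fin 3) k, aeval x0 Φ = 0 → aeval x Φ = 0 := by
        intro Φ h0
        have h2 : aeval x Φ = ι (aeval x0 Φ) := by
          rw [hxx, ← MvPolynomial.comp_aeval_apply]
        rw [h2, h0, map_zero]
      rcases hCon with ⟨e, Φ, he, h1, h2, h3⟩ | hdeg
      · exact ⟨e, Φ, by omega, h1, h2, hav Φ h3⟩
      · obtain ⟨e, Φ, he, h1, h2, h3⟩ := hIMF k K0 ht0 x0 hcr.one
        refine ⟨e, Φ, ?_, h1, h2, hav Φ h3⟩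
        have h4 : C1 * S0.card ≤ C1 * Sp.card := Nat.mul_le_mul_left _ hcard
        omega
  · -- the fundamental inequality
    have h1 := hEFS k F σ X u dd δ j0 c0 J hS hX m GP (by omega) hN sg S hSh K ht D hD φ x g Sp hx n t V VK hVE
      hVd hVK hev
    obtain ⟨e, Φ, he, hΦ⟩ := hIMF k K ht x hx.one
    refine ⟨e, Φ, ?_, hΦ⟩
    have he' : (e : ℤ) ≤ 2 * (deg k x : ℤ) + 1 := by exact_mod_cast he
    have h2 : (1 : ℤ) ≤ (t : ℤ) - (2 * n + 1) * j0 - n * sg := by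
      have h3 : (((2 * n + 1) * j0 + n * sg : ℕ) : ℤ) < (t : ℤ) := by exact_mod_cast hnt
      push_cast at h3
      omega
    generalize max 1 (canDeg D + (Sp.card : ℤ)) = M at hM1 hM2 ⊢
    have h3 : (deg k x : ℤ) ≤ ((t : ℤ) - (2 * n + 1) * j0 - n * sg) * deg k x := by
      have h4 : (0 : ℤ) ≤ (deg k x : ℤ) := by positivity
      nlinarith
    have h4 : (n : ℤ) * (canDeg D + Sp.card) ≤ (n : ℤ) * M :=
      mul_le_mul_of_nonneg_left hM2 (by positivity)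
    have h5 : (0 : ℤ) ≤ (C1 : ℤ) * M := by positivity
    have h6 : (0 : ℤ) ≤ (h : ℤ) * M := by positivity
    push_cast
    nlinarith

end Pool.Agent.H42.S2
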